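import Pool.Agent.Q202.ST.Net
import Pool.Agent.Q225.LS.Core

set_option autoImplicit false

/-! # The functions of one item computed by a circuit -/

namespace Pool.Agent.Q202.ST

open Finset MvPolynomial

variable {ι : Type} {D : ι → Type} [DecidableEq ι] {S F : Type} [Fintype S] {Y : Type}

/-- the value of a linear function at the vector of a network -/
theorem few_value [Field F] [Nonempty Y] (i : ι) (y : Y → D i) (u : List Bool)
    (h : Y → List Bool) (t : Net ι D S F) (ht : 1 ≤ t.live i u) (a : S → F) :
    ∃ (σ : Type) (_ : Fintype σ) (P : Y → MvPolynomial σ F),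
      Fintype.card σ ≤ 3 * t.live i u * Fintype.card S ^ 2 ∧
      (∀ v, (P v).totalDegree ≤ 3 * t.live i u) ∧
      ∀ (z : ∀ i, D i) (b : Y → List Bool), Fits u h b → ∃ θ : σ → F, ∀ v,
        ∑ s, a s * t.eval (Function.update z i (y v)) (b v) s = eval θ (P v) := by
  obtain ⟨σ, _, P, h1, h2, h3⟩ :=
    (few_live i y u h t ht).mono (subset_mulB _) le_rfl le_rfl
  refine ⟨σ, inferInstance, fun v => ∑ s, C (a s) * P v s, ?_, fun v => ?_, fun z b hb => ?_⟩
  · exact h1.trans (Nat.mul_le_mul_right _ (by omega))
  · refine (totalDegree_finsetSum _ _).trans (Finset.sup_le fun s _ => ?_)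
    refine (totalDegree_mul _ _).trans ?_
    rw [totalDegree_C, zero_add]
    exact (h2 v s).trans (by omega)
  · obtain ⟨θ, hθ⟩ := h3 _ ⟨z, b, hb, rfl⟩
    refine ⟨θ, fun v => ?_⟩
    simp only [map_sum, map_mul, eval_C]
    exact sum_congr rfl fun s _ => by rw [← hθ v s]

open Classical in
/-- the functions computed by a gate which depends on item `i` -/
theorem Gate.few [Fintype Y] [Nonempty Y] (i : ι) (y : Y → D i) (u : List Bool)
    (h : Y → List Bool) (M : ℕ) (g : Gate ι D S) (hg : 1 ≤ g.live i u)
    (hM : 4 * Fintype.card Y * (3 * g.live i u) + 2 ≤ M) :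
    ∃ 𝒯 : Finset (Y → Bool), 𝒯.card ≤ M ^ (3 * g.live i u * Fintype.card S ^ 2) ∧
      ∀ (z : ∀ i, D i) (b : Y → List Bool), Fits u h b →
        (fun v => g.eval (Function.update z i (y v)) (b v)) ∈ 𝒯 := by
  have hM1 : 0 < M := by omega
  cases g with
  | positive t a =>
    simp only [Gate.live] at hg hM ⊢
    obtain ⟨σ, _, P, h1, h2, h3⟩ := few_value i y u h t hg a
    have h4 := Pool.Agent.Helper448.Warren.ncard_sign_patterns_le P (3 * t.live i u) h2
    refine ⟨(Set.toFinite (Set.range (fun θ : σ → ℝ => fun v : Y =>
      SignType.sign (MvPolynomial.eval θ (P v))))).toFinset.image (fun s => fun v => decide (s v = 1)),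
      ?_, fun z b hb => ?_⟩
    · refine card_image_le.trans ?_
      rw [← Set.ncard_eq_toFinset_card]
      exact h4.trans ((Nat.pow_le_pow_left hM _).trans (Nat.pow_le_pow_right hM1 h1))
    · obtain ⟨θ, hθ⟩ := h3 z b hb
      rw [mem_image]
      refine ⟨fun v => SignType.sign (MvPolynomial.eval θ (P v)), ?_, ?_⟩
      · rw [Set.Finite.mem_toFinset]
        exact ⟨θ, rfl⟩
      · funext v
        simp only [Gate.eval, hθ v, sign_eq_one_iff]
  | nonzero F inst t a =>
    simp only [Gate.live] at hg hM ⊢
    obtain ⟨σ, _, P, h1, h2, h3⟩ := few_value i y u h t hg a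
    have h4 := Pool.Agent.Y350.DGF.zero F Y σ P (3 * t.live i u) h2
    refine ⟨(Set.toFinite (Set.range fun θ : σ → F => {v : Y | MvPolynomial.eval θ (P v) ≠ 0})).toFinset.image
      (fun s => fun v => decide (v ∈ s)), ?_, fun z b hb => ?_⟩
    · refine card_image_le.trans ?_
      rw [← Set.ncard_eq_toFinset_card]
      refine h4.trans (le_trans (Nat.pow_le_pow_left ?_ _) (Nat.pow_le_pow_right hM1 h1))
      refine le_trans ?_ hM
      nlinarith
    · obtain ⟨θ, hθ⟩ := h3 z b hb
      rw [mem_image]
      refine ⟨{v : Y | MvPolynomial.eval θ (P v) ≠ 0}, ?_, ?_⟩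
      · rw [Set.Finite.mem_toFinset]
        exact ⟨θ, rfl⟩
      · funext v
        simp only [Gate.eval, hθ v]
        exact decide_eq_decide.2 Iff.rfl

theorem Gate.dead (i : ι) (y : Y → D i) (u : List Bool) (h b : Y → List Bool)
    (hb : Fits u h b) (z : ∀ i, D i) (g : Gate ι D S) (hg : g.live i u = 0) (v v' : Y) :
    g.eval (Function.update z i (y v)) (b v) = g.eval (Function.update z i (y v')) (b v') := by
  cases g with
  | positive t a =>
    simp only [Gate.live] at hg
    simp only [Gate.eval, ST.dead i y u h b hb z t hg v v']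
  | nonzero F inst t a =>
    simp only [Gate.live] at hg
    have e := ST.dead i y u h b hb z t hg v v'
    simp only [Gate.eval]
    rw [e]

open Classical in
/-- few combinations of the bits which depend on item `i` -/
theorem sigs [Fintype Y] [Nonempty Y] (i : ι) (y : Y → D i) (I : Finset ι) (hi : i ∈ I)
    (L M : ℕ) (hM : 4 * Fintype.card Y * (3 * L) + 2 ≤ M) :
    ∀ C : Circuit ι D S, GateLoadLE I L C →
      ∃ 𝒮 : Finset (Y → List Bool), 𝒮.card ≤ M ^ (3 * loadAt i C * Fintype.card S ^ 2) ∧
        ∀ z : ∀ i, D i, ∃ h ∈ 𝒮, Fits (deps i C) h (fun v => run (Function.update z i (y v)) C)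
  | [], _ => by
    refine ⟨{fun _ => []}, by simp [loadAt], fun z => ⟨_, mem_singleton_self _, ?_, ?_⟩⟩
    · intro k hk
      simp [deps] at hk
    · intro k _ v v'
      simp [run]
  | g :: C, hC => by
    obtain ⟨hg, hC⟩ := hC
    obtain ⟨𝒮, h1, h2⟩ := sigs i y I hi L M hM C hC
    rcases Nat.eq_zero_or_pos (g.live i (deps i C)) with h0 | h0
    · refine ⟨𝒮.image (fun h v => false :: h v), ?_, fun z => ?_⟩
      · refine card_image_le.trans ?_
        simp only [loadAt, h0, Nat.zero_add]
        exact h1
      · obtain ⟨h, hh, hf⟩ := h2 z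
        refine ⟨_, mem_image_of_mem _ hh, ?_, ?_⟩
        · intro k hk v
          cases k with
          | zero => simp [deps, h0] at hk
          | succ k =>
            simp only [deps, List.getD_cons_succ] at hk
            simp only [run, List.getD_cons_succ]
            exact hf.on k hk v
        · intro k hk v v'
          cases k with
          | zero =>
            simp only [run, List.getD_cons_zero]
            exact Gate.dead i y _ h _ hf z g h0 v v'
          | succ k =>
            simp only [deps, List.getD_cons_succ] at hk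
            simp only [run, List.getD_cons_succ]
            exact hf.off k hk v v'
    · have hMg : 4 * Fintype.card Y * (3 * g.live i (deps i C)) + 2 ≤ M := by
        refine le_trans (Nat.add_le_add_right (Nat.mul_le_mul_left _ ?_) _) hM
        have := hg i hi
        omega
      choose 𝒯 ht1 ht2 using fun h : Y → List Bool => g.few i y (deps i C) h M h0 hMg
      refine ⟨𝒮.biUnion fun h => (𝒯 h).image (fun τ v => τ v :: h v), ?_, fun z => ?_⟩
      · have e : 3 * loadAt i (g :: C) * Fintype.card S ^ 2 =
            3 * loadAt i C * Fintype.card S ^ 2 +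
              3 * g.live i (deps i C) * Fintype.card S ^ 2 := by
          simp only [loadAt]
          ring
        rw [e, pow_add]
        refine (card_biUnion_le_card_mul _ _ (M ^ (3 * g.live i (deps i C) *
          Fintype.card S ^ 2)) fun h _ => card_image_le.trans (ht1 h)).trans ?_
        exact Nat.mul_le_mul_right _ h1
      · obtain ⟨h, hh, hf⟩ := h2 z
        refine ⟨_, mem_biUnion.2 ⟨h, hh, mem_image_of_mem _ (ht2 h z _ hf)⟩, ?_, ?_⟩
        · intro k hk v
          cases k with
          | zero => simp only [run, List.getD_cons_zero]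
          | succ k =>
            simp only [deps, List.getD_cons_succ] at hk
            simp only [run, List.getD_cons_succ]
            exact hf.on k hk v
        · intro k hk v v'
          cases k with
          | zero => simp [deps, h0] at hk
          | succ k =>
            simp only [deps, List.getD_cons_succ] at hk
            simp only [run, List.getD_cons_succ]
            exact hf.off k hk v v'

open Classical in
/-- few functions of one item -/
theorem few_accepts [Fintype Y] (i : ι) (y : Y → D i) (I : Finset ι) (hi : i ∈ I)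
    (L M : ℕ) (hM : 4 * Fintype.card Y * (3 * L) + 2 ≤ M) (C : Circuit ι D S)
    (hC : GateLoadLE I L C) :
    ∃ 𝒮 : Finset (Y → Bool), 𝒮.card ≤ M ^ (3 * loadAt i C * Fintype.card S ^ 2 + 1) ∧
      ∀ z, (fun v => accepts C (Function.update z i (y v))) ∈ 𝒮 := by
  have hM1 : 0 < M := by omega
  rcases isEmpty_or_nonempty Y with hY | hY
  · refine ⟨{fun _ => false}, ?_, fun z => ?_⟩
    · rw [card_singleton]
      exact Nat.one_le_pow _ _ hM1
    · rw [mem_singleton]
      funext v
      exact (hY.false v).elim
  obtain ⟨𝒮, h1, h2⟩ := sigs i y I hi L M hM C hC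
  have e : ∀ l : List Bool, l.headD false = l.getD 0 false := by
    intro l
    cases l <;> simp
  by_cases hd : (deps i C).getD 0 false = true
  · refine ⟨𝒮.image (fun h v => (h v).getD 0 false), ?_, fun z => ?_⟩
    · exact card_image_le.trans (h1.trans (Nat.pow_le_pow_right hM1 (by omega)))
    · obtain ⟨h, hh, hf⟩ := h2 z
      rw [mem_image]
      refine ⟨h, hh, ?_⟩
      funext v
      unfold accepts
      rw [e, hf.on 0 hd v]
  · refine ⟨{fun _ => false, fun _ => true}, ?_, fun z => ?_⟩
    · refine card_le_two.trans ?_
      calc 2 ≤ M := by omega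
        _ = M ^ 1 := (pow_one M).symm
        _ ≤ _ := Nat.pow_le_pow_right hM1 (by omega)
    · obtain ⟨h, hh, hf⟩ := h2 z
      obtain ⟨v0⟩ := hY
      have h3 : (fun v => accepts C (Function.update z i (y v))) =
          fun _ => accepts C (Function.update z i (y v0)) := by
        funext v
        unfold accepts
        rw [e, e]
        exact hf.off 0 hd v v0
      rw [h3]
      cases accepts C (Function.update z i (y v0)) <;> simp

end Pool.Agent.Q202.ST
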