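import Mathlib

set_option autoImplicit false

/-! # Circuits whose gates are tensor networks -/

namespace Pool.Agent.Q202.ST

open Finset

/-- Tree tensor networks over the field `F` whose edges carry vectors with the coordinates `S`. The
input consists of the items `x i`. A network computes a vector: a constant vector, the product of a
matrix, which is an arbitrary function of one item or of one of the bits of the earlier gates (bit
number `k` belongs to the gate `k + 1` places before), with the vector of another network, or the
contraction of the vectors of two networks with a constant tensor. -/
inductive Net (ι : Type) (D : ι → Type) (S F : Type) : Type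
  | const (w : S → F) : Net ι D S F
  | item (i : ι) (A : D i → S → S → F) (t : Net ι D S F) : Net ι D S F
  | bit (k : ℕ) (A : Bool → S → S → F) (t : Net ι D S F) : Net ι D S F
  | node (c : S → S → S → F) (l r : Net ι D S F) : Net ι D S F

variable {ι : Type} {D : ι → Type} {S F : Type}

namespace Net

/-- The vector which is computed; `b` is the list of the bits of the earlier gates, the latest gate
first. -/
def eval [Fintype S] [Semiring F] (x : ∀ i, D i) (b : List Bool) : Net ι D S F → S → F
  | const w => w
  | item i A t => fun s => ∑ p, A (x i) s p * t.eval x b p
  | bit k A t => fun s => ∑ p, A (b.getD k false) s p * t.eval x b p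
  | node c l r => fun s => ∑ p, ∑ q, c s p q * (l.eval x b p * r.eval x b q)

/-- The number of the matrices which depend on item `i`: they are functions of item `i`, or of the
bit of an earlier gate which depends on item `i` (these are marked in the list `u`). -/
def live [DecidableEq ι] (i : ι) (u : List Bool) : Net ι D S F → ℕ
  | const _ => 0
  | item j _ t => (if j = i then 1 else 0) + t.live i u
  | bit k _ t => (if u.getD k false = true then 1 else 0) + t.live i u
  | node _ l r => l.live i u + r.live i u

end Net

/-- A gate is a tensor network and a linear function of its vector. The bit of the gate is one if the
value is positive (for real networks), or if the value is not zero (for networks over any field). -/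
inductive Gate (ι : Type) (D : ι → Type) (S : Type) : Type 1
  | positive (t : Net ι D S ℝ) (a : S → ℝ) : Gate ι D S
  | nonzero (F : Type) (inst : Field F) (t : Net ι D S F) (a : S → F) : Gate ι D S

namespace Gate

open Classical in
/-- The bit of the gate; `b` is the list of the bits of the earlier gates. -/
noncomputable def eval [Fintype S] (x : ∀ i, D i) (b : List Bool) : Gate ι D S → Bool
  | positive t a => decide (0 < ∑ s, a s * t.eval x b s)
  | nonzero _ _ t a => decide (∑ s, a s * t.eval x b s ≠ 0)

/-- The number of the matrices in the gate which depend on item `i`. -/
def live [DecidableEq ι] (i : ι) (u : List Bool) : Gate ι D S → ℕ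
  | positive t _ => t.live i u
  | nonzero _ _ t _ => t.live i u

end Gate

/-- A circuit is a sequence of gates, the last gate first. The bits of the gates may be used any
number of times. -/
abbrev Circuit (ι : Type) (D : ι → Type) (S : Type) := List (Gate ι D S)

/-- The bits of all gates, the last gate first. -/
noncomputable def run [Fintype S] (x : ∀ i, D i) : Circuit ι D S → List Bool
  | [] => []
  | g :: C => g.eval x (run x C) :: run x C

/-- The result: the bit of the last gate. -/
noncomputable def accepts [Fintype S] (C : Circuit ι D S) (x : ∀ i, D i) : Bool :=
  (run x C).headD false

/-- Which gates depend on item `i`? (A gate depends on item `i` if one of its matrices does.) -/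
def deps [DecidableEq ι] (i : ι) : Circuit ι D S → List Bool
  | [] => []
  | g :: C => decide (0 < g.live i (deps i C)) :: deps i C

/-- The number of the matrices in all gates which depend on item `i`. -/
def loadAt [DecidableEq ι] (i : ι) : Circuit ι D S → ℕ
  | [] => 0
  | g :: C => g.live i (deps i C) + loadAt i C

/-- The load: the number of pairs of an item in `I` and a matrix (of any gate) which depends on this
item. -/
def load [DecidableEq ι] (I : Finset ι) (C : Circuit ι D S) : ℕ := ∑ i ∈ I, loadAt i C

/-- In no gate more than `L` matrices depend on the same item in `I`. -/
def GateLoadLE [DecidableEq ι] (I : Finset ι) (L : ℕ) : Circuit ι D S → Prop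
  | [] => True
  | g :: C => (∀ i ∈ I, g.live i (deps i C) ≤ L) ∧ GateLoadLE I L C

end Pool.Agent.Q202.ST
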