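import Pool.Agent.Q202.ST.Defs

set_option autoImplicit false

/-! # Families of vector functions which depend polynomially on few parameters -/

namespace Pool.Agent.Q202.ST

open Finset MvPolynomial

variable {Y S F : Type} [Fintype S] [Field F]

/-- the functions in `G` are polynomials of degree at most `d` in at most `N` parameters -/
def Few (G : Set (Y → S → F)) (N d : ℕ) : Prop :=
  ∃ (σ : Type) (_ : Fintype σ) (P : Y → S → MvPolynomial σ F), Fintype.card σ ≤ N ∧
    (∀ v s, (P v s).totalDegree ≤ d) ∧ ∀ g ∈ G, ∃ θ : σ → F, ∀ v s, g v s = eval θ (P v s)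

omit [Fintype S] in
theorem Few.mono {G G' : Set (Y → S → F)} {N N' d d' : ℕ} (h : Few G' N' d') (hG : G ⊆ G')
    (hN : N' ≤ N) (hd : d' ≤ d) : Few G N d := by
  obtain ⟨σ, i, P, h1, h2, h3⟩ := h
  exact ⟨σ, i, P, h1.trans hN, fun v s => (h2 v s).trans hd, fun g hg => h3 g (hG hg)⟩

omit [Fintype S] in
theorem few_empty [IsEmpty Y] (G : Set (Y → S → F)) (N d : ℕ) : Few G N d :=
  ⟨Empty, inferInstance, fun v => isEmptyElim v, by simp, fun v => isEmptyElim v,
    fun _ _ => ⟨fun e => e.elim, fun v => isEmptyElim v⟩⟩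

theorem few_const (G : Set (Y → S → F)) (h : ∀ g ∈ G, ∃ w : S → F, g = fun _ => w) :
    Few G (Fintype.card S) 1 := by
  refine ⟨S, inferInstance, fun _ s => X s, le_rfl, fun v s => ?_, fun g hg => ?_⟩
  · rw [totalDegree_X]
  · obtain ⟨w, rfl⟩ := h g hg
    exact ⟨w, fun v s => by rw [eval_X]⟩

/-- the products with arbitrary constant matrices -/
def mulB (G : Set (Y → S → F)) : Set (Y → S → F) :=
  {g | ∃ (B : S → S → F), ∃ g' ∈ G, g = fun v s => ∑ p, B s p * g' v p}

theorem subset_mulB (G : Set (Y → S → F)) : G ⊆ mulB G := by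
  classical
  intro g hg
  refine ⟨fun s p => if s = p then 1 else 0, g, hg, ?_⟩
  funext v s
  simp [ite_mul]

theorem few_mat {G : Set (Y → S → F)} {N d : ℕ} (h : Few G N d) (A : Y → S → S → F) :
    Few {g | ∃ (B : S → S → F), ∃ g' ∈ G,
      g = fun v s => ∑ p, B s p * ∑ q, A v p q * g' v q} (Fintype.card S ^ 2 + N) (d + 1) := by
  obtain ⟨σ, i, P, h1, h2, h3⟩ := h
  refine ⟨(S × S) ⊕ σ, inferInstance, fun v s => ∑ p, X (Sum.inl (s, p)) *
    ∑ q, C (A v p q) * rename Sum.inr (P v q), ?_, fun v s => ?_, ?_⟩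
  · rw [Fintype.card_sum, Fintype.card_prod]
    have : Fintype.card S * Fintype.card S = Fintype.card S ^ 2 := by ring
    omega
  · refine (totalDegree_finsetSum _ _).trans (Finset.sup_le fun p _ => ?_)
    refine (totalDegree_mul _ _).trans ?_
    rw [totalDegree_X, add_comm]
    apply Nat.add_le_add_right
    refine (totalDegree_finsetSum _ _).trans (Finset.sup_le fun q _ => ?_)
    refine (totalDegree_mul _ _).trans ?_
    rw [totalDegree_C, zero_add]
    exact (totalDegree_rename_le _ _).trans (h2 v q)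
  · rintro g ⟨B, g', hg', rfl⟩
    obtain ⟨θ, hθ⟩ := h3 g' hg'
    refine ⟨Sum.elim (fun p => B p.1 p.2) θ, fun v s => ?_⟩
    simp only [map_sum, map_mul, eval_X, eval_C, eval_rename, Sum.elim_inl,
      Sum.elim_comp_inr, hθ]

theorem few_node {G₁ G₂ : Set (Y → S → F)} {N₁ d₁ N₂ d₂ : ℕ} (h₁ : Few G₁ N₁ d₁)
    (h₂ : Few G₂ N₂ d₂) (c : S → S → S → F) :
    Few {g | ∃ (B : S → S → F), ∃ g₁ ∈ G₁, ∃ g₂ ∈ G₂,
      g = fun v s => ∑ p, B s p * ∑ a, ∑ b, c p a b * (g₁ v a * g₂ v b)}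
      (Fintype.card S ^ 2 + (N₁ + N₂)) (1 + (d₁ + d₂)) := by
  obtain ⟨σ, i, P, h1, h2, h3⟩ := h₁
  obtain ⟨τ, j, Q, k1, k2, k3⟩ := h₂
  refine ⟨(S × S) ⊕ (σ ⊕ τ), inferInstance, fun v s => ∑ p, X (Sum.inl (s, p)) *
    ∑ a, ∑ b, C (c p a b) * (rename (fun x => Sum.inr (Sum.inl x)) (P v a) *
      rename (fun x => Sum.inr (Sum.inr x)) (Q v b)), ?_, fun v s => ?_, ?_⟩
  · rw [Fintype.card_sum, Fintype.card_prod, Fintype.card_sum]
    have : Fintype.card S * Fintype.card S = Fintype.card S ^ 2 := by ring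
    omega
  · refine (totalDegree_finsetSum _ _).trans (Finset.sup_le fun p _ => ?_)
    refine (totalDegree_mul _ _).trans ?_
    rw [totalDegree_X]
    apply Nat.add_le_add_left
    refine (totalDegree_finsetSum _ _).trans (Finset.sup_le fun a _ => ?_)
    refine (totalDegree_finsetSum _ _).trans (Finset.sup_le fun b _ => ?_)
    refine (totalDegree_mul _ _).trans ?_
    rw [totalDegree_C, zero_add]
    refine (totalDegree_mul _ _).trans ?_
    exact Nat.add_le_add ((totalDegree_rename_le _ _).trans (h2 v a))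
      ((totalDegree_rename_le _ _).trans (k2 v b))
  · rintro g ⟨B, g₁, hg₁, g₂, hg₂, rfl⟩
    obtain ⟨θ, hθ⟩ := h3 g₁ hg₁
    obtain ⟨η, hη⟩ := k3 g₂ hg₂
    refine ⟨Sum.elim (fun p => B p.1 p.2) (Sum.elim θ η), fun v s => ?_⟩
    have e1 : (Sum.elim (fun p : S × S => B p.1 p.2) (Sum.elim θ η)) ∘
        (fun x => Sum.inr (Sum.inl x)) = θ := rfl
    have e2 : (Sum.elim (fun p : S × S => B p.1 p.2) (Sum.elim θ η)) ∘
        (fun x => Sum.inr (Sum.inr x)) = η := rfl
    simp only [map_sum, map_mul, eval_X, eval_C, eval_rename, Sum.elim_inl, e1, e2, hθ, hη]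

end Pool.Agent.Q202.ST
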