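import Pool.Agent.Q202.ST.Circ
import Pool.Agent.Q225.LS.Good

set_option autoImplicit false

/-! # The lower bound for circuits of tensor networks -/

namespace Pool.Agent.Q202.ST

open Finset
open Pool.Agent.Y638.RF (Asks gen_err)
open Pool.Agent.TH697.Form (IsProb)
open Pool.Agent.TH697.Row (ApproximatesOn)
open Pool.Agent.Q225.LS (mean mean_nonneg Good close)

variable {ι : Type} {D : ι → Type} [DecidableEq ι] {T : Type} [Fintype T] {Ω : Type} [Fintype Ω]

open Classical in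
theorem lower (μ : Ω → ℝ) (hμ : IsProb μ) (G : Ω → (∀ i, D i) → Bool)
    (P : (∀ i, D i) → Prop) (f : (∀ i, D i) → Bool) (hF : ApproximatesOn μ G P f)
    (e : Ω → ι → ℕ) (K M : ℕ) (hM : 1 ≤ M) (I : Finset ι) (δ : ℝ)
    (hsub : ∀ (Y : Type) [Fintype Y] (i : ι) (y : Y → D i), i ∈ I → Fintype.card Y ≤ K → ∀ ω,
      ∃ 𝒮 : Finset (Y → Bool), 𝒮.card ≤ M ^ e ω i ∧
        ∀ z, (fun v => G ω (Function.update z i (y v))) ∈ 𝒮)
    (h : ∀ i ∈ I, Asks T K δ P f i) :
    (I.card : ℝ) * ((49 / 600 - δ) * Fintype.card T) ≤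
      Real.logb 2 M * mean μ (fun ω => ∑ i ∈ I, e ω i) := by
  have h6 : (0 : ℝ) < Real.log 2 := Real.log_pos (by norm_num)
  have hlM : 0 ≤ Real.log (M : ℝ) := Real.log_nonneg (by exact_mod_cast hM)
  have h1 : ∀ i ∈ I, (49 / 600 - δ) * Fintype.card T * Real.log 2
      ≤ ∑ ω, μ ω * (Real.log M * (e ω i : ℝ)) := by
    intro i hi
    obtain ⟨A, r, Qs, R, hA, hQA, hQ, hP, hf⟩ := h i hi
    obtain ⟨y, hy⟩ : ∃ y : {d // d ∈ A} → D i, y = fun v => v.1 := ⟨_, rfl⟩
    have hK : Fintype.card {d // d ∈ A} ≤ K := by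
      rw [Fintype.card_coe]
      exact hA
    choose 𝒮 hS1 hS2 using fun ω => hsub {d // d ∈ A} i y hi hK ω
    refine (gen_err μ hμ G P f hF i y 𝒮 (fun ω z => hS2 ω z) r
      (fun t z => ⟨Qs t z, hQA t z⟩) (fun t z z' hz => Subtype.ext (hQ t z z' hz)) R
      (fun t z => by rw [hy]; exact hP t z) δ (by rw [hy]; exact hf)).trans ?_
    apply sum_le_sum
    intro ω _
    apply mul_le_mul_of_nonneg_left _ (hμ.nonneg ω)
    have hne : 1 ≤ (𝒮 ω).card := card_pos.2 ⟨_, hS2 ω (R (fun _ => false))⟩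
    have h2 : ((𝒮 ω).card : ℝ) ≤ (M : ℝ) ^ e ω i := by
      exact_mod_cast hS1 ω
    have h4 := Real.log_le_log (by exact_mod_cast hne) h2
    rw [Real.log_pow] at h4
    linarith
  have h2 := sum_le_sum h1
  rw [sum_const, nsmul_eq_mul, sum_comm] at h2
  have h3 : ∑ ω, ∑ i ∈ I, μ ω * (Real.log M * (e ω i : ℝ)) =
      Real.log M * mean μ (fun ω => ∑ i ∈ I, e ω i) := by
    unfold mean
    rw [mul_sum]
    refine sum_congr rfl fun ω _ => ?_
    rw [← mul_sum, ← mul_sum]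
    push_cast
    ring
  rw [h3] at h2
  have h7 : Real.logb 2 M * mean μ (fun ω => ∑ i ∈ I, e ω i) * Real.log 2 =
      Real.log M * mean μ (fun ω => ∑ i ∈ I, e ω i) := by
    rw [Real.logb]
    field_simp
  have h5 : (I.card : ℝ) * ((49 / 600 - δ) * Fintype.card T) * Real.log 2 ≤
      Real.logb 2 M * mean μ (fun ω => ∑ i ∈ I, e ω i) * Real.log 2 := by
    rw [h7]
    linarith
  exact le_of_mul_le_mul_right h5 h6

variable {S : Type} [Fintype S]

theorem bound {K L R : ℕ} {B : ℝ} {I : Finset ι}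
    (hg : Good K R (I.card * ((49 / 600) * Fintype.card T)) B) (hL : 3 * L ≤ R)
    {P : (∀ i, D i) → Prop} {f : (∀ i, D i) → Bool} (h : ∀ i ∈ I, Asks T K 0 P f i)
    (μ : Ω → ℝ) (hμ : IsProb μ) (C : Ω → Circuit ι D S) (hC : ∀ ω, GateLoadLE I L (C ω))
    (hF : ApproximatesOn μ (fun ω => accepts (C ω)) P f) :
    B ≤ 3 * (Fintype.card S : ℝ) ^ 2 * mean μ (fun ω => load I (C ω)) + I.card := by
  classical
  obtain ⟨M, G, h1, h2, h3, h4⟩ := hg
  have h5 := lower μ hμ (fun ω => accepts (C ω)) P f hF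
    (fun ω i => 3 * loadAt i (C ω) * Fintype.card S ^ 2 + 1) K M (by omega) I 0
    (fun Y _ i y hi hK ω => by
      refine few_accepts i y I hi L M ?_ (C ω) (hC ω)
      refine le_trans ?_ h1
      exact Nat.add_le_add_right (Nat.mul_le_mul (Nat.mul_le_mul_left _ hK) (by omega)) _) h
  rw [sub_zero] at h5
  have h6 : mean μ (fun ω => ∑ i ∈ I, (3 * loadAt i (C ω) * Fintype.card S ^ 2 + 1)) =
      3 * (Fintype.card S : ℝ) ^ 2 * mean μ (fun ω => load I (C ω)) + I.card := by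
    unfold mean load
    have e1 : ∀ ω, μ ω * ((∑ i ∈ I, (3 * loadAt i (C ω) * Fintype.card S ^ 2 + 1) : ℕ) : ℝ) =
        3 * (Fintype.card S : ℝ) ^ 2 * (μ ω * ((∑ i ∈ I, loadAt i (C ω) : ℕ) : ℝ)) +
          μ ω * I.card := by
      intro ω
      push_cast
      rw [sum_add_distrib, sum_const, nsmul_eq_mul, mul_one, ← sum_mul, ← mul_sum]
      ring
    rw [sum_congr rfl fun ω _ => e1 ω, sum_add_distrib, ← mul_sum, ← sum_mul, hμ.sum_one, one_mul]
  rw [h6] at h5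
  have h7 : 0 ≤ 3 * (Fintype.card S : ℝ) ^ 2 * mean μ (fun ω => load I (C ω)) + I.card := by
    have := mean_nonneg μ hμ (fun ω => load I (C ω))
    positivity
  have h8 := close (Q := 1) (by rw [mul_one]; exact h5) zero_le_one h7 h2 h3 h4
  rwa [one_mul] at h8

end Pool.Agent.Q202.ST
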