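import Pool.Agent.Q202.ST.Few

set_option autoImplicit false

/-! # The functions of one item computed by a tensor network -/

namespace Pool.Agent.Q202.ST

open Finset MvPolynomial

variable {ι : Type} {D : ι → Type} [DecidableEq ι] {S F : Type} [Fintype S] [Field F] {Y : Type}

/-- The bits which depend on item `i` (marked in `u`) are given by `h`, the others are constant. -/
structure Fits (u : List Bool) (h b : Y → List Bool) : Prop where
  on : ∀ k, u.getD k false = true → ∀ v, (b v).getD k false = (h v).getD k false
  off : ∀ k, u.getD k false ≠ true → ∀ v v', (b v).getD k false = (b v').getD k false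

theorem dead (i : ι) (y : Y → D i) (u : List Bool) (h b : Y → List Bool) (hb : Fits u h b)
    (z : ∀ i, D i) : ∀ t : Net ι D S F, t.live i u = 0 → ∀ v v',
      t.eval (Function.update z i (y v)) (b v) = t.eval (Function.update z i (y v')) (b v')
  | .const w, _, v, v' => rfl
  | .item j A t, ht, v, v' => by
    simp only [Net.live] at ht
    have hj : j ≠ i := by
      rintro rfl
      simp at ht
    have ht2 : t.live i u = 0 := by omega
    have ih := dead i y u h b hb z t ht2 v v'
    funext s
    simp only [Net.eval]
    rw [ih, Function.update_of_ne hj, Function.update_of_ne hj]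
  | .bit k A t, ht, v, v' => by
    simp only [Net.live] at ht
    have hk : u.getD k false ≠ true := by
      intro hk
      rw [if_pos hk] at ht
      omega
    have ht2 : t.live i u = 0 := by omega
    have ih := dead i y u h b hb z t ht2 v v'
    funext s
    simp only [Net.eval]
    rw [ih, hb.off k hk v v']
  | .node c l r, ht, v, v' => by
    simp only [Net.live] at ht
    have h1 := dead i y u h b hb z l (by omega) v v'
    have h2 := dead i y u h b hb z r (by omega) v v'
    funext s
    simp only [Net.eval]
    rw [h1, h2]

/-- the functions of the value of item `i` which are computed by the network -/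
def Vals (i : ι) (y : Y → D i) (u : List Bool) (h : Y → List Bool) (t : Net ι D S F) :
    Set (Y → S → F) :=
  {g | ∃ (z : ∀ i, D i) (b : Y → List Bool), Fits u h b ∧
    g = fun v => t.eval (Function.update z i (y v)) (b v)}

theorem few_dead [Nonempty Y] (i : ι) (y : Y → D i) (u : List Bool) (h : Y → List Bool)
    (t : Net ι D S F) (ht : t.live i u = 0) : Few (Vals i y u h t) (Fintype.card S) 1 := by
  apply few_const
  rintro g ⟨z, b, hb, rfl⟩
  obtain ⟨v0⟩ := ‹Nonempty Y›
  exact ⟨t.eval (Function.update z i (y v0)) (b v0), funext fun v =>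
    dead i y u h b hb z t ht v v0⟩

theorem few_live [Nonempty Y] (i : ι) (y : Y → D i) (u : List Bool) (h : Y → List Bool) :
    ∀ t : Net ι D S F, 1 ≤ t.live i u →
      Few (mulB (Vals i y u h t)) ((3 * t.live i u - 1) * Fintype.card S ^ 2)
        (3 * t.live i u - 1)
  | .const w, ht => by simp [Net.live] at ht
  | .item j A t, ht => by
    have hS : Fintype.card S ≤ Fintype.card S ^ 2 := Nat.le_self_pow (by norm_num) _
    by_cases hj : j = i
    · subst hj
      have hl : (Net.item j A t).live j u = 1 + t.live j u := by simp [Net.live]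
      rw [hl]
      have key : ∀ N d, Few (Vals j y u h t) N d →
          Few (mulB (Vals j y u h (.item j A t))) (Fintype.card S ^ 2 + N) (d + 1) := by
        intro N d hf
        refine (few_mat hf (fun v => A (y v))).mono ?_ le_rfl le_rfl
        rintro g ⟨B, g', ⟨z, b, hb, rfl⟩, rfl⟩
        refine ⟨B, _, ⟨z, b, hb, rfl⟩, ?_⟩
        funext v s
        simp only [Net.eval, Function.update_self]
      rcases Nat.eq_zero_or_pos (t.live j u) with h0 | h0
      · refine (key _ _ (few_dead j y u h t h0)).mono subset_rfl ?_ ?_
        · rw [h0]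
          norm_num
          nlinarith
        · omega
      · refine (key _ _ ((few_live j y u h t h0).mono (subset_mulB _) le_rfl le_rfl)).mono
          subset_rfl ?_ ?_
        · have e : 3 * (1 + t.live j u) - 1 = (3 * t.live j u - 1) + 3 := by omega
          rw [e, Nat.add_mul]
          nlinarith
        · omega
    · have hl : (Net.item j A t).live i u = t.live i u := by simp [Net.live, hj]
      rw [hl] at ht ⊢
      refine (few_live i y u h t ht).mono ?_ le_rfl le_rfl
      rintro g ⟨B, g', ⟨z, b, hb, rfl⟩, rfl⟩
      refine ⟨fun s q => ∑ p, B s p * A (z j) p q, _, ⟨z, b, hb, rfl⟩, ?_⟩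
      funext v s
      simp only [Net.eval, Function.update_of_ne hj, Finset.mul_sum, Finset.sum_mul]
      rw [Finset.sum_comm]
      exact sum_congr rfl fun q _ => sum_congr rfl fun p _ => by ring
  | .bit k A t, ht => by
    have hS : Fintype.card S ≤ Fintype.card S ^ 2 := Nat.le_self_pow (by norm_num) _
    by_cases hk : u.getD k false = true
    · have hl : (Net.bit k A t).live i u = 1 + t.live i u := by
        simp only [Net.live, if_pos hk]
      rw [hl]
      have key : ∀ N d, Few (Vals i y u h t) N d →
          Few (mulB (Vals i y u h (.bit k A t))) (Fintype.card S ^ 2 + N) (d + 1) := by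
        intro N d hf
        refine (few_mat hf (fun v => A ((h v).getD k false))).mono ?_ le_rfl le_rfl
        rintro g ⟨B, g', ⟨z, b, hb, rfl⟩, rfl⟩
        refine ⟨B, _, ⟨z, b, hb, rfl⟩, ?_⟩
        funext v s
        simp only [Net.eval]
        rw [hb.on k hk v]
      rcases Nat.eq_zero_or_pos (t.live i u) with h0 | h0
      · refine (key _ _ (few_dead i y u h t h0)).mono subset_rfl ?_ ?_
        · rw [h0]
          norm_num
          nlinarith
        · omega
      · refine (key _ _ ((few_live i y u h t h0).mono (subset_mulB _) le_rfl le_rfl)).mono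
          subset_rfl ?_ ?_
        · have e : 3 * (1 + t.live i u) - 1 = (3 * t.live i u - 1) + 3 := by omega
          rw [e, Nat.add_mul]
          nlinarith
        · omega
    · have hl : (Net.bit k A t).live i u = t.live i u := by
        simp only [Net.live, if_neg hk, Nat.zero_add]
      rw [hl] at ht ⊢
      refine (few_live i y u h t ht).mono ?_ le_rfl le_rfl
      rintro g ⟨B, g', ⟨z, b, hb, rfl⟩, rfl⟩
      obtain ⟨v0⟩ := ‹Nonempty Y›
      refine ⟨fun s q => ∑ p, B s p * A ((b v0).getD k false) p q, _, ⟨z, b, hb, rfl⟩, ?_⟩
      funext v s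
      simp only [Net.eval, Finset.mul_sum, Finset.sum_mul]
      rw [hb.off k hk v v0, Finset.sum_comm]
      exact sum_congr rfl fun q _ => sum_congr rfl fun p _ => by ring
  | .node c l r, ht => by
    have hl : (Net.node c l r).live i u = l.live i u + r.live i u := rfl
    rw [hl] at ht ⊢
    rcases Nat.eq_zero_or_pos (l.live i u) with h1 | h1
    · have h2 : 1 ≤ r.live i u := by omega
      rw [h1, Nat.zero_add]
      refine (few_live i y u h r h2).mono ?_ le_rfl le_rfl
      rintro g ⟨B, g', ⟨z, b, hb, rfl⟩, rfl⟩
      obtain ⟨v0⟩ := ‹Nonempty Y›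
      refine ⟨fun s q => ∑ p, ∑ a, B s p *
        (c p a q * l.eval (Function.update z i (y v0)) (b v0) a), _, ⟨z, b, hb, rfl⟩, ?_⟩
      funext v s
      simp only [Net.eval]
      rw [dead i y u h b hb z l h1 v v0]
      simp only [Finset.mul_sum, Finset.sum_mul]
      rw [Finset.sum_congr rfl fun p _ => Finset.sum_comm, Finset.sum_comm]
      exact sum_congr rfl fun q _ => sum_congr rfl fun p _ => sum_congr rfl fun a _ => by ring
    · rcases Nat.eq_zero_or_pos (r.live i u) with h2 | h2
      · rw [h2, Nat.add_zero]
        refine (few_live i y u h l h1).mono ?_ le_rfl le_rfl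
        rintro g ⟨B, g', ⟨z, b, hb, rfl⟩, rfl⟩
        obtain ⟨v0⟩ := ‹Nonempty Y›
        refine ⟨fun s a => ∑ p, ∑ q, B s p *
          (c p a q * r.eval (Function.update z i (y v0)) (b v0) q), _, ⟨z, b, hb, rfl⟩, ?_⟩
        funext v s
        simp only [Net.eval]
        rw [dead i y u h b hb z r h2 v v0]
        simp only [Finset.mul_sum, Finset.sum_mul]
        rw [Finset.sum_comm]
        exact sum_congr rfl fun q _ => sum_congr rfl fun p _ => sum_congr rfl fun a _ => by ring
      · have f1 := (few_live i y u h l h1).mono (subset_mulB _) le_rfl le_rfl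
        have f2 := (few_live i y u h r h2).mono (subset_mulB _) le_rfl le_rfl
        refine (few_node f1 f2 c).mono ?_ ?_ ?_
        · rintro g ⟨B, g', ⟨z, b, hb, rfl⟩, rfl⟩
          exact ⟨B, _, ⟨z, b, hb, rfl⟩, _, ⟨z, b, hb, rfl⟩, rfl⟩
        · have e : 3 * (l.live i u + r.live i u) - 1 =
              1 + ((3 * l.live i u - 1) + (3 * r.live i u - 1)) := by omega
          rw [e]
          apply le_of_eq
          ring
        · omega

end Pool.Agent.Q202.ST
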